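import Mathlib

set_option autoImplicit false

open Classical

namespace Pool.Agent.Helper995.Reassign

/-- A step of a process on machines `V` and tasks `E`: a pulse of a machine (used only in the
analysis), the arrival of a task, or the departure of a task. -/
inductive Step (V E : Type) where
  | pulse (v : V)
  | ins (e : E)
  | del (e : E)

section General

variable {V E : Type}

/-- The set of active tasks after a process; processes are listed newest step first. -/
def alive : List (Step V E) → Set E
  | [] => ∅
  | .pulse _ :: l => alive l
  | .ins e :: l => insert e (alive l)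
  | .del e :: l => alive l \ {e}

/-- The end of task `f` pulsed last (since its arrival). -/
noncomputable def last (p : E → Bool → V) (f : E) : List (Step V E) → Option Bool
  | [] => none
  | .ins e :: l => if e = f then none else last p f l
  | .del _ :: l => last p f l
  | .pulse v :: l => if v = p f false then some false else
      if v = p f true then some true else last p f l

/-- The number of alternations of task `f` during its life. -/
noncomputable def alt (p : E → Bool → V) (f : E) : List (Step V E) → ℕ
  | [] => 0
  | .ins _ :: l => alt p f l
  | .del _ :: l => alt p f l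
  | .pulse v :: l => alt p f l +
      (if f ∈ alive l ∧ ∃ s, v = p f s ∧ last p f l = some (!s) then 1 else 0)

/-- A height function in which every machine has at most one task going down, and the machines of
`R` have none. -/
def Cert (p : E → Bool → V) (F : Set E) (R : Set V) : Prop :=
  ∃ d : V → ℕ, (∀ e ∈ F, d (p e false) ≠ d (p e true)) ∧
    (∀ e ∈ F, ∀ s, ∀ e' ∈ F, ∀ s', p e s = p e' s' →
      d (p e (!s)) < d (p e s) → d (p e' (!s')) < d (p e' s') → e = e') ∧
    (∀ e ∈ F, ∀ s, p e s ∈ R → ¬ d (p e (!s)) < d (p e s))

/-- Well-formed processes all of whose states have certificates. -/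
def Good (p : E → Bool → V) : List (Step V E) → Prop
  | [] => True
  | .pulse _ :: l => Good p l
  | .ins e :: l => Good p l ∧ Step.ins e ∉ l ∧ p e false ≠ p e true ∧
      Cert p (alive l) {p e false, p e true} ∧ Cert p (insert e (alive l)) ∅
  | .del e :: l => Good p l ∧ e ∈ alive l

/-- Number of pulses. -/
def pulses : List (Step V E) → ℕ
  | [] => 0
  | .pulse _ :: l => pulses l + 1
  | .ins _ :: l => pulses l
  | .del _ :: l => pulses l

/-- Number of events. -/
def events : List (Step V E) → ℕ
  | [] => 0
  | .pulse _ :: l => events l
  | .ins _ :: l => events l + 1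
  | .del _ :: l => events l + 1

lemma pulses_append (L L0 : List (Step V E)) : pulses (L ++ L0) = pulses L + pulses L0 := by
  induction L with
  | nil => simp [pulses]
  | cons s L ih => cases s <;> (simp [pulses, ih]; try omega)

lemma events_append (L L0 : List (Step V E)) : events (L ++ L0) = events L + events L0 := by
  induction L with
  | nil => simp [events]
  | cons s L ih => cases s <;> (simp [events, ih]; try omega)

lemma Cert.mono {p : E → Bool → V} {F F' : Set E} {R R' : Set V} (h : Cert p F R) (hF : F' ⊆ F)
    (hR : R' ⊆ R) : Cert p F' R' := by
  obtain ⟨d, h1, h2, h3⟩ := h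
  refine ⟨d, fun e he => h1 e (hF he), fun e he s e' he' s' => h2 e (hF he) s e' (hF he') s', ?_⟩
  intro e he s hs
  exact h3 e (hF he) s (hR hs)

lemma Cert.empty {p : E → Bool → V} (R : Set V) : Cert p ∅ R := by
  refine ⟨fun _ => 0, ?_, ?_, ?_⟩ <;> simp

lemma Good.cert {p : E → Bool → V} {l : List (Step V E)} (h : Good p l) : Cert p (alive l) ∅ := by
  induction l with
  | nil => exact Cert.empty _
  | cons s l ih =>
    cases s with
    | pulse v => exact ih h
    | ins e => exact h.2.2.2.2
    | del e => exact (ih h.1).mono Set.sdiff_subset (le_refl _)

lemma ins_mem_of_alive {l : List (Step V E)} {e : E} (h : e ∈ alive l) : Step.ins e ∈ l := by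
  induction l with
  | nil => simp [alive] at h
  | cons s l ih =>
    cases s with
    | pulse v => exact List.mem_cons_of_mem _ (ih h)
    | ins e' =>
      rcases h with h | h
      · subst h; exact List.mem_cons_self
      · exact List.mem_cons_of_mem _ (ih h)
    | del e' => exact List.mem_cons_of_mem _ (ih h.1)

lemma Good.ins_of_del {p : E → Bool → V} {l : List (Step V E)} (h : Good p l) {e : E}
    (he : Step.del e ∈ l) : Step.ins e ∈ l := by
  induction l with
  | nil => simp at he
  | cons s l ih =>
    cases s with
    | pulse v =>
      simp only [List.mem_cons, reduceCtorEq, false_or] at he ⊢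
      exact ih h he
    | ins e' =>
      simp only [List.mem_cons, reduceCtorEq, false_or] at he
      exact List.mem_cons_of_mem _ (ih h.1 he)
    | del e' =>
      simp only [List.mem_cons, Step.del.injEq] at he
      rcases he with he | he
      · subst he
        exact List.mem_cons_of_mem _ (ins_mem_of_alive h.2)
      · exact List.mem_cons_of_mem _ (ih h.1 he)

lemma alive_append (L L0 : List (Step V E)) (h : ∀ e, Step.del e ∈ L → e ∉ alive L0) :
    alive (L ++ L0) = alive L ∪ alive L0 := by
  induction L with
  | nil => simp [alive]
  | cons s L ih =>
    have ih' := ih (fun e he => h e (List.mem_cons_of_mem _ he))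
    cases s with
    | pulse v => simpa [alive] using ih'
    | ins e => simp only [List.cons_append, alive, ih', Set.insert_union]
    | del e =>
      have := h e List.mem_cons_self
      simp only [List.cons_append, alive, ih', Set.union_sdiff_distrib]
      congr 1
      ext a
      simp only [Set.mem_sdiff, Set.mem_singleton_iff]
      constructor
      · exact fun h => h.1
      · intro ha
        refine ⟨ha, ?_⟩
        rintro rfl
        exact this ha

lemma good_append {p : E → Bool → V} (L L0 : List (Step V E)) (ES : Set E) (VS : Set V)
    (hL : Good p L) (hL0 : Good p L0)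
    (hES : ∀ e, Step.ins e ∈ L → e ∈ ES)
    (hpt : ∀ e ∈ ES, ∀ s, p e s ∈ VS)
    (hfresh : ∀ e ∈ ES, Step.ins e ∉ L0)
    (hext : ∀ F ⊆ ES, ∀ R ⊆ VS, Cert p F R → Cert p (F ∪ alive L0) R) :
    Good p (L ++ L0) := by
  have hdel : ∀ L' : List (Step V E), Good p L' → (∀ e, Step.ins e ∈ L' → e ∈ ES) →
      ∀ e, Step.del e ∈ L' → e ∉ alive L0 := by
    intro L' hL' hES' e he hal
    exact hfresh e (hES' e (hL'.ins_of_del he)) (ins_mem_of_alive hal)
  induction L with
  | nil => simpa using hL0
  | cons s L ih =>
    cases s with
    | pulse v =>
      exact ih hL (fun e he => hES e (List.mem_cons_of_mem _ he))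
    | ins e =>
      obtain ⟨h1, h2, h3, h4, h5⟩ := hL
      have hES' : ∀ e, Step.ins e ∈ L → e ∈ ES := fun e he => hES e (List.mem_cons_of_mem _ he)
      have he : e ∈ ES := hES e List.mem_cons_self
      have hal := alive_append L L0 (hdel L h1 hES')
      have hsub : alive L ⊆ ES := fun a ha => hES' a (ins_mem_of_alive ha)
      refine ⟨ih h1 hES', ?_, h3, ?_, ?_⟩
      · show Step.ins e ∉ L ++ L0
        simp only [List.mem_append, not_or]
        exact ⟨h2, hfresh e he⟩
      · show Cert p (alive (L ++ L0)) _
        rw [hal]
        apply hext _ hsub _ _ h4
        intro w hw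
        rcases hw with hw | hw
        · subst hw; exact hpt e he _
        · rw [Set.mem_singleton_iff] at hw; subst hw; exact hpt e he _
      · show Cert p (insert e (alive (L ++ L0))) _
        rw [hal, ← Set.insert_union]
        apply hext _ _ _ (Set.empty_subset _) h5
        intro a ha
        rcases ha with ha | ha
        · subst ha; exact he
        · exact hsub ha
    | del e =>
      obtain ⟨h1, h2⟩ := hL
      have hES' : ∀ e, Step.ins e ∈ L → e ∈ ES := fun e he => hES e (List.mem_cons_of_mem _ he)
      refine ⟨ih h1 hES', ?_⟩
      have hal := alive_append L L0 (hdel L h1 hES')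
      show e ∈ alive (L ++ L0)
      rw [hal]
      exact Or.inl h2

/-- Steps that do not touch task `f`. -/
def Untouched (p : E → Bool → V) (f : E) (L : List (Step V E)) : Prop :=
  Step.ins f ∉ L ∧ Step.del f ∉ L ∧ Step.pulse (p f false) ∉ L ∧ Step.pulse (p f true) ∉ L

lemma Untouched.tail {p : E → Bool → V} {f : E} {s : Step V E} {L : List (Step V E)}
    (h : Untouched p f (s :: L)) : Untouched p f L := by
  obtain ⟨h1, h2, h3, h4⟩ := h
  refine ⟨fun h => h1 (List.mem_cons_of_mem _ h), fun h => h2 (List.mem_cons_of_mem _ h),
    fun h => h3 (List.mem_cons_of_mem _ h), fun h => h4 (List.mem_cons_of_mem _ h)⟩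

lemma untouched_append {p : E → Bool → V} {f : E} (L L0 : List (Step V E))
    (h : Untouched p f L) : last p f (L ++ L0) = last p f L0 ∧ alt p f (L ++ L0) = alt p f L0 ∧
      (f ∈ alive (L ++ L0) ↔ f ∈ alive L0) := by
  induction L with
  | nil => simp
  | cons s L ih =>
    obtain ⟨i1, i2, i3⟩ := ih h.tail
    obtain ⟨h1, h2, h3, h4⟩ := h
    cases s with
    | pulse v =>
      have hv1 : v ≠ p f false := by
        rintro rfl; exact h3 List.mem_cons_self
      have hv2 : v ≠ p f true := by
        rintro rfl; exact h4 List.mem_cons_self
      refine ⟨?_, ?_, ?_⟩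
      · simp [last, hv1, hv2, i1]
      · have : ¬ ∃ s, v = p f s ∧ last p f (L ++ L0) = some (!s) := by
          rintro ⟨s, hs, -⟩
          cases s
          · exact hv1 hs
          · exact hv2 hs
        simp only [List.cons_append, alt, this, and_false, if_false, i2, add_zero]
      · simpa [alive] using i3
    | ins e =>
      have he : e ≠ f := by
        rintro rfl; exact h1 List.mem_cons_self
      refine ⟨?_, ?_, ?_⟩
      · simp [last, he, i1]
      · simp [alt, i2]
      · simp only [List.cons_append, alive, Set.mem_insert_iff, i3]
        constructor
        · rintro (h | h)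
          · exact absurd h.symm he
          · exact h
        · exact Or.inr
    | del e =>
      have he : e ≠ f := by
        rintro rfl; exact h2 List.mem_cons_self
      refine ⟨?_, ?_, ?_⟩
      · simp [last, i1]
      · simp [alt, i2]
      · simp only [List.cons_append, alive, Set.mem_sdiff, i3, Set.mem_singleton_iff]
        constructor
        · exact fun h => h.1
        · exact fun h => ⟨h, fun h' => he h'.symm⟩

/-- If the past does not touch `f`, the state of `f` is that of the recent part alone. -/
lemma untouched_past {p : E → Bool → V} {f : E} (L L0 : List (Step V E))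
    (h : Untouched p f L0) : last p f (L ++ L0) = last p f L ∧ alt p f (L ++ L0) = alt p f L ∧
      (f ∈ alive (L ++ L0) ↔ f ∈ alive L) := by
  have h0 := untouched_append L0 [] h
  rw [List.append_nil] at h0
  obtain ⟨j1, j2, j3⟩ := h0
  induction L with
  | nil => exact ⟨j1, j2, j3⟩
  | cons s L ih =>
    obtain ⟨i1, i2, i3⟩ := ih
    cases s with
    | pulse v =>
      refine ⟨?_, ?_, ?_⟩
      · simp [last, i1]
      · simp only [List.cons_append, alt, i1, i2, i3]
      · simpa [alive] using i3
    | ins e =>
      refine ⟨?_, ?_, ?_⟩
      · simp [last, i1]
      · simp [alt, i2]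
      · simp only [List.cons_append, alive, Set.mem_insert_iff, i3]
    | del e =>
      refine ⟨?_, ?_, ?_⟩
      · simp [last, i1]
      · simp [alt, i2]
      · simp only [List.cons_append, alive, Set.mem_sdiff, i3, Set.mem_singleton_iff]

lemma alt_le_append {p : E → Bool → V} {f : E} (L L0 : List (Step V E)) :
    alt p f L0 ≤ alt p f (L ++ L0) := by
  induction L with
  | nil => simp
  | cons s L ih =>
    cases s with
    | pulse v => simp only [List.cons_append, alt]; omega
    | ins e => simpa [alt] using ih
    | del e => simpa [alt] using ih

/-- A block in which only side `s` of task `f` is pulsed, at least once. -/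
lemma side_append {p : E → Bool → V} {f : E} (hne : p f false ≠ p f true) (s : Bool)
    (L L0 : List (Step V E)) (h1 : Step.ins f ∉ L) (h2 : Step.del f ∉ L)
    (h3 : Step.pulse (p f (!s)) ∉ L) (h4 : Step.pulse (p f s) ∈ L) :
    last p f (L ++ L0) = some s ∧ (f ∈ alive (L ++ L0) ↔ f ∈ alive L0) ∧
      alt p f L0 + (if f ∈ alive L0 ∧ last p f L0 = some (!s) then 1 else 0)
        ≤ alt p f (L ++ L0) := by
  induction L with
  | nil => simp at h4
  | cons st L ih =>
    have h1' : Step.ins f ∉ L := fun h => h1 (List.mem_cons_of_mem _ h)
    have h2' : Step.del f ∉ L := fun h => h2 (List.mem_cons_of_mem _ h)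
    have h3' : Step.pulse (p f (!s)) ∉ L := fun h => h3 (List.mem_cons_of_mem _ h)
    have hlast : ∀ l : List (Step V E), last p f (Step.pulse (p f s) :: l) = some s := by
      intro l
      cases s
      · simp [last]
      · simp [last, hne.symm]
    by_cases h4' : Step.pulse (p f s) ∈ L
    · obtain ⟨i1, i2, i3⟩ := ih h1' h2' h3' h4'
      cases st with
      | pulse v =>
        have hv : v ≠ p f (!s) := by
          rintro rfl; exact h3 List.mem_cons_self
        refine ⟨?_, ?_, ?_⟩
        · by_cases hv' : v = p f s
          · subst hv'; exact hlast _
          · cases s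
            · simp only [Bool.not_false] at hv
              simp [last, hv, hv', i1]
            · simp only [Bool.not_true] at hv
              simp [last, hv, hv', i1]
        · simpa [alive] using i2
        · simp only [List.cons_append, alt]; omega
      | ins e =>
        have he : e ≠ f := by
          rintro rfl; exact h1 List.mem_cons_self
        refine ⟨?_, ?_, ?_⟩
        · simp [last, he, i1]
        · simp only [List.cons_append, alive, Set.mem_insert_iff, i2]
          constructor
          · rintro (h | h)
            · exact absurd h.symm he
            · exact h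
          · exact Or.inr
        · simp only [List.cons_append, alt]; omega
      | del e =>
        have he : e ≠ f := by
          rintro rfl; exact h2 List.mem_cons_self
        refine ⟨?_, ?_, ?_⟩
        · simp [last, i1]
        · simp only [List.cons_append, alive, Set.mem_sdiff, i2, Set.mem_singleton_iff]
          constructor
          · exact fun h => h.1
          · exact fun h => ⟨h, fun h' => he h'.symm⟩
        · simp only [List.cons_append, alt]; omega
    · have hst : st = Step.pulse (p f s) := by
        rw [List.mem_cons] at h4
        rcases h4 with h4 | h4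
        · exact h4.symm
        · exact absurd h4 h4'
      subst hst
      have hun : Untouched p f L := by
        refine ⟨h1', h2', ?_, ?_⟩
        · cases s
          · exact h4'
          · exact h3'
        · cases s
          · exact h3'
          · exact h4'
      obtain ⟨j1, j2, j3⟩ := untouched_append L L0 hun
      refine ⟨hlast _, ?_, ?_⟩
      · simpa [alive] using j3
      · simp only [List.cons_append, alt, j1, j2, j3]
        by_cases hc : f ∈ alive L0 ∧ last p f L0 = some (!s)
        · rw [if_pos hc, if_pos ⟨hc.1, s, rfl, hc.2⟩]
        · rw [if_neg hc]; omega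

end General

end Pool.Agent.Helper995.Reassign
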