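import Mathlib
import Pool.Agent.Helper995.Reassign.Core

set_option autoImplicit false

open Classical

namespace Pool.Agent.Helper995.Reassign

section Cover

variable {V E : Type}

/-- Flip coordinate `e` of `y` when `s = true`. -/
noncomputable def flipAt (e : E) (s : Bool) (y : E → Bool) : E → Bool :=
  Function.update y e (xor (y e) s)

/-- Ends of the lifted tasks. -/
noncomputable def cp (p : E → Bool → V) : E × (E → Bool) → Bool → V × (E → Bool) :=
  fun f s => (p f.1 s, flipAt f.1 s f.2)

lemma flipAt_self (e : E) (s : Bool) (y : E → Bool) : flipAt e s y e = xor (y e) s := by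
  simp [flipAt]

lemma flipAt_ne {e e' : E} (h : e' ≠ e) (s : Bool) (y : E → Bool) : flipAt e s y e' = y e' := by
  simp [flipAt, h]

lemma flipAt_false (e : E) (y : E → Bool) : flipAt e false y = y := by
  simp [flipAt]

lemma flipAt_inj {e : E} {s : Bool} {y y' : E → Bool} (h : flipAt e s y = flipAt e s y') :
    y = y' := by
  funext a
  have := congrFun h a
  by_cases ha : a = e
  · subst ha
    rw [flipAt_self, flipAt_self] at this
    cases s <;> simpa using this
  · rwa [flipAt_ne ha, flipAt_ne ha] at this

variable [Fintype V] [Fintype E]

/-- Copies agreeing with `x` away from the tasks that have arrived. -/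
noncomputable def cluster (l : List (Step V E)) (x : E → Bool) : Finset (E → Bool) :=
  Finset.univ.filter fun y => ∀ e, Step.ins e ∉ l → y e = x e

lemma mem_cluster {l : List (Step V E)} {x y : E → Bool} :
    y ∈ cluster l x ↔ ∀ e, Step.ins e ∉ l → y e = x e := by
  simp [cluster]

lemma cluster_nil (x : E → Bool) : cluster ([] : List (Step V E)) x = {x} := by
  ext y
  rw [mem_cluster, Finset.mem_singleton]
  constructor
  · intro h; funext e; exact h e (by simp)
  · rintro rfl e _; rfl

lemma cluster_pulse (v : V) (l : List (Step V E)) (x : E → Bool) :
    cluster (Step.pulse v :: l) x = cluster l x := by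
  ext y
  rw [mem_cluster, mem_cluster]
  simp

lemma cluster_del (e : E) (l : List (Step V E)) (x : E → Bool) :
    cluster (Step.del e :: l) x = cluster l x := by
  ext y
  rw [mem_cluster, mem_cluster]
  simp

lemma mem_cluster_ins {e : E} {l : List (Step V E)} (he : Step.ins e ∉ l) {x y : E → Bool} :
    y ∈ cluster (Step.ins e :: l) x ↔ y ∈ cluster l (Function.update x e (y e)) := by
  rw [mem_cluster, mem_cluster]
  constructor
  · intro h a ha
    by_cases hae : a = e
    · subst hae; simp
    · rw [Function.update_of_ne hae]
      apply h
      simp only [List.mem_cons, Step.ins.injEq, not_or]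
      exact ⟨hae, ha⟩
  · intro h a ha
    simp only [List.mem_cons, Step.ins.injEq, not_or] at ha
    have := h a ha.2
    rwa [Function.update_of_ne ha.1] at this

lemma mem_cluster_update {e : E} {l : List (Step V E)} (he : Step.ins e ∉ l) {x y : E → Bool}
    {i : Bool} :
    y ∈ cluster l (Function.update x e i) ↔ y ∈ cluster (Step.ins e :: l) x ∧ y e = i := by
  rw [mem_cluster_ins he]
  constructor
  · intro h
    have h' : y e = i := by
      have := (mem_cluster.1 h) e he
      simpa using this
    exact ⟨by rwa [h'], h'⟩
  · rintro ⟨h, rfl⟩
    exact h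

lemma flipAt_mem_cluster {e : E} {l : List (Step V E)} (he : Step.ins e ∈ l) {x y : E → Bool}
    (s : Bool) (hy : y ∈ cluster l x) : flipAt e s y ∈ cluster l x := by
  rw [mem_cluster] at hy ⊢
  intro a ha
  have : a ≠ e := by
    rintro rfl; exact ha he
  rw [flipAt_ne this]
  exact hy a ha

lemma card_cluster_ins {e : E} {l : List (Step V E)} (he : Step.ins e ∉ l) (x : E → Bool) :
    (cluster (Step.ins e :: l) x).card = (cluster l (Function.update x e false)).card +
      (cluster l (Function.update x e true)).card := by
  rw [← Finset.card_union_of_disjoint]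
  · congr 1
    ext y
    rw [Finset.mem_union, mem_cluster_update he, mem_cluster_update he]
    cases h : y e <;> simp
  · rw [Finset.disjoint_left]
    intro y h1 h2
    rw [mem_cluster_update he] at h1 h2
    rw [h1.2] at h2
    exact absurd h2.2 (by simp)

/-- The doubled process. -/
noncomputable def dbl : List (Step V E) → (E → Bool) →
    List (Step (V × (E → Bool)) (E × (E → Bool)))
  | [], x => (Finset.univ : Finset V).toList.map fun v => Step.pulse (v, x)
  | .pulse v :: l, x => (cluster l x).toList.map (fun y => Step.pulse (v, y)) ++ dbl l x
  | .del e :: l, x => (cluster l x).toList.map (fun y => Step.del (e, y)) ++ dbl l x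
  | .ins e :: l, x => dbl l (Function.update x e true) ++
      (dbl l (Function.update x e false) ++
        (cluster (.ins e :: l) x).toList.map (fun y => Step.ins (e, y)))

lemma pulses_map_pulse {A V' E' : Type} (L : List A) (g : A → V') :
    pulses (L.map fun a => (Step.pulse (g a) : Step V' E')) = L.length := by
  induction L with
  | nil => rfl
  | cons a L ih => simp [pulses, ih]

lemma pulses_map_ins {A V' E' : Type} (L : List A) (g : A → E') :
    pulses (L.map fun a => (Step.ins (g a) : Step V' E')) = 0 := by
  induction L with
  | nil => rfl
  | cons a L ih => simp [pulses, ih]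

lemma pulses_map_del {A V' E' : Type} (L : List A) (g : A → E') :
    pulses (L.map fun a => (Step.del (g a) : Step V' E')) = 0 := by
  induction L with
  | nil => rfl
  | cons a L ih => simp [pulses, ih]

lemma events_map_pulse {A V' E' : Type} (L : List A) (g : A → V') :
    events (L.map fun a => (Step.pulse (g a) : Step V' E')) = 0 := by
  induction L with
  | nil => rfl
  | cons a L ih => simp [events, ih]

lemma events_map_ins {A V' E' : Type} (L : List A) (g : A → E') :
    events (L.map fun a => (Step.ins (g a) : Step V' E')) = L.length := by
  induction L with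
  | nil => rfl
  | cons a L ih => simp [events, ih]

lemma events_map_del {A V' E' : Type} (L : List A) (g : A → E') :
    events (L.map fun a => (Step.del (g a) : Step V' E')) = L.length := by
  induction L with
  | nil => rfl
  | cons a L ih => simp [events, ih]

lemma pulses_dbl {p : E → Bool → V} (l : List (Step V E)) (hl : Good p l) (x : E → Bool) :
    pulses (dbl l x) = (cluster l x).card * (Fintype.card V + pulses l) := by
  induction l generalizing x with
  | nil =>
    rw [cluster_nil, dbl, pulses_map_pulse, Finset.length_toList]
    simp [pulses]
  | cons s l ih =>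
    cases s with
    | pulse v =>
      rw [dbl, pulses_append, pulses_map_pulse, Finset.length_toList, ih hl, cluster_pulse]
      simp only [pulses]; ring
    | ins e =>
      rw [dbl, pulses_append, pulses_append, pulses_map_ins, ih hl.1, ih hl.1,
        card_cluster_ins hl.2.1]
      simp only [pulses]; ring
    | del e =>
      rw [dbl, pulses_append, pulses_map_del, ih hl.1, cluster_del]
      simp only [pulses]; ring

lemma events_dbl {p : E → Bool → V} (l : List (Step V E)) (hl : Good p l) (x : E → Bool) :
    events (dbl l x) = (cluster l x).card * events l := by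
  induction l generalizing x with
  | nil =>
    rw [cluster_nil, dbl, events_map_pulse]
    simp [events]
  | cons s l ih =>
    cases s with
    | pulse v =>
      rw [dbl, events_append, events_map_pulse, ih hl, cluster_pulse]
      simp only [events]; ring
    | ins e =>
      rw [dbl, events_append, events_append, events_map_ins, ih hl.1, ih hl.1,
        Finset.length_toList, card_cluster_ins hl.2.1]
      simp only [events]; ring
    | del e =>
      rw [dbl, events_append, events_map_del, Finset.length_toList, ih hl.1, cluster_del]
      simp only [events]; ring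

/-- all steps of the doubled process live on the copies of the cluster -/
lemma dbl_pulse_mem {p : E → Bool → V} (l : List (Step V E)) (hl : Good p l) (x : E → Bool)
    (v : V) (y : E → Bool) : Step.pulse (v, y) ∈ dbl l x ↔ y ∈ cluster l x := by
  induction l generalizing x with
  | nil =>
    rw [cluster_nil, dbl]
    simp only [List.mem_map, Finset.mem_toList, Finset.mem_univ, true_and, Step.pulse.injEq,
      Prod.mk.injEq, Finset.mem_singleton]
    constructor
    · rintro ⟨a, -, rfl⟩; rfl
    · rintro rfl; exact ⟨v, rfl, rfl⟩
  | cons s l ih =>
    cases s with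
    | pulse w =>
      rw [dbl, List.mem_append, ih hl, cluster_pulse]
      constructor
      · rintro (h | h)
        · simp only [List.mem_map, Finset.mem_toList, Step.pulse.injEq, Prod.mk.injEq] at h
          obtain ⟨a, ha, -, rfl⟩ := h
          exact ha
        · exact h
      · exact Or.inr
    | ins e =>
      rw [dbl, List.mem_append, List.mem_append, ih hl.1, ih hl.1, mem_cluster_update hl.2.1,
        mem_cluster_update hl.2.1]
      simp only [List.mem_map, reduceCtorEq, and_false, exists_false, or_false]
      cases y e <;> simp
    | del e =>
      rw [dbl, List.mem_append, ih hl.1, cluster_del]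
      simp

lemma dbl_ins_mem {p : E → Bool → V} (l : List (Step V E)) (hl : Good p l) (x : E → Bool)
    (e : E) (y : E → Bool) :
    Step.ins (e, y) ∈ dbl l x ↔ Step.ins e ∈ l ∧ y ∈ cluster l x := by
  induction l generalizing x with
  | nil =>
    rw [dbl]; simp
  | cons s l ih =>
    cases s with
    | pulse w =>
      rw [dbl, List.mem_append, ih hl, cluster_pulse]
      simp
    | ins e' =>
      rw [dbl, List.mem_append, List.mem_append, ih hl.1, ih hl.1, mem_cluster_update hl.2.1,
        mem_cluster_update hl.2.1]
      simp only [List.mem_map, Finset.mem_toList, Step.ins.injEq, Prod.mk.injEq, List.mem_cons]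
      constructor
      · rintro (h | h | ⟨a, ha, rfl, rfl⟩)
        · exact ⟨Or.inr h.1, h.2.1⟩
        · exact ⟨Or.inr h.1, h.2.1⟩
        · exact ⟨Or.inl rfl, ha⟩
      · rintro ⟨rfl | h, h2⟩
        · exact Or.inr (Or.inr ⟨y, h2, rfl, rfl⟩)
        · cases hy : y e'
          · exact Or.inr (Or.inl ⟨h, h2, rfl⟩)
          · exact Or.inl ⟨h, h2, rfl⟩
    | del e =>
      rw [dbl, List.mem_append, ih hl.1, cluster_del]
      simp

lemma dbl_del_mem {p : E → Bool → V} (l : List (Step V E)) (hl : Good p l) (x : E → Bool)
    (e : E) (y : E → Bool) :
    Step.del (e, y) ∈ dbl l x → Step.ins e ∈ l ∧ y ∈ cluster l x := by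
  induction l generalizing x with
  | nil =>
    rw [dbl]; simp
  | cons s l ih =>
    cases s with
    | pulse w =>
      rw [dbl, List.mem_append, cluster_pulse]
      rintro (h | h)
      · simp at h
      · have := ih hl x h
        exact ⟨List.mem_cons_of_mem _ this.1, this.2⟩
    | ins e' =>
      rw [dbl, List.mem_append, List.mem_append]
      rintro (h | h | h)
      · have := ih hl.1 _ h
        rw [mem_cluster_update hl.2.1] at this
        exact ⟨List.mem_cons_of_mem _ this.1, this.2.1⟩
      · have := ih hl.1 _ h
        rw [mem_cluster_update hl.2.1] at this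
        exact ⟨List.mem_cons_of_mem _ this.1, this.2.1⟩
      · simp at h
    | del e' =>
      rw [dbl, List.mem_append, cluster_del]
      rintro (h | h)
      · simp only [List.mem_map, Finset.mem_toList, Step.del.injEq, Prod.mk.injEq] at h
        obtain ⟨a, ha, rfl, rfl⟩ := h
        exact ⟨List.mem_cons_of_mem _ (ins_mem_of_alive hl.2), ha⟩
      · have := ih hl.1 _ h
        exact ⟨List.mem_cons_of_mem _ this.1, this.2⟩

/-- Lift of a set of tasks to the copies in a set. -/
def lift (H : Set E) (S : Set (E → Bool)) : Set (E × (E → Bool)) := {f | f.1 ∈ H ∧ f.2 ∈ S}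

lemma alive_map_ins {A : Type} {V' E' : Type} (L : List A) (g : A → E') :
    alive (L.map fun a => (Step.ins (g a) : Step V' E')) = {e | ∃ a ∈ L, g a = e} := by
  induction L with
  | nil => simp [alive]
  | cons a L ih =>
    simp only [List.map_cons, alive, ih]
    ext e
    simp only [Set.mem_insert_iff, Set.mem_ofPred_eq, List.mem_cons, exists_eq_or_imp]
    constructor
    · rintro (h | h)
      · exact Or.inl h.symm
      · exact Or.inr h
    · rintro (h | h)
      · exact Or.inl h.symm
      · exact Or.inr h

lemma alive_map_pulse {A : Type} {V' E' : Type} (L : List A) (g : A → V')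
    (L0 : List (Step V' E')) :
    alive ((L.map fun a => (Step.pulse (g a) : Step V' E')) ++ L0) = alive L0 := by
  induction L with
  | nil => simp
  | cons a L ih => simpa [alive] using ih

lemma alive_map_del {A : Type} {V' E' : Type} (L : List A) (g : A → E')
    (L0 : List (Step V' E')) :
    alive ((L.map fun a => (Step.del (g a) : Step V' E')) ++ L0) =
      alive L0 \ {e | ∃ a ∈ L, g a = e} := by
  induction L with
  | nil => simp
  | cons a L ih =>
    simp only [List.map_cons, List.cons_append, alive, ih]
    ext e
    simp only [Set.mem_sdiff, Set.mem_ofPred_eq, List.mem_cons, exists_eq_or_imp,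
      Set.mem_singleton_iff, not_or]
    constructor
    · rintro ⟨⟨h1, h2⟩, h3⟩
      exact ⟨h1, fun h => h3 h.symm, h2⟩
    · rintro ⟨h1, h2, h3⟩
      exact ⟨⟨h1, h3⟩, fun h => h2 h.symm⟩

lemma alive_dbl {p : E → Bool → V} (l : List (Step V E)) (hl : Good p l) (x : E → Bool) :
    alive (dbl l x) = lift (alive l) {y | y ∈ cluster l x} := by
  induction l generalizing x with
  | nil =>
    have := alive_map_pulse (E' := E × (E → Bool)) (Finset.univ : Finset V).toList
      (fun v => (v, x)) []
    rw [List.append_nil] at this
    rw [dbl, this]
    simp [alive, lift]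
  | cons s l ih =>
    cases s with
    | pulse v =>
      rw [dbl, alive_map_pulse, ih hl, cluster_pulse]
      rfl
    | ins e =>
      have hins := alive_map_ins (V' := V × (E → Bool)) (cluster (Step.ins e :: l) x).toList
        (fun y => (e, y))
      have hd : ∀ (i : Bool) (f : E × (E → Bool)), Step.del f ∈ dbl l (Function.update x e i) →
          f.1 ≠ e ∧ f.2 e = i := by
        intro i f hf
        have := dbl_del_mem l hl.1 _ f.1 f.2 hf
        rw [mem_cluster_update hl.2.1] at this
        refine ⟨?_, this.2.2⟩
        intro h
        rw [h] at this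
        exact hl.2.1 this.1
      have h1 : alive (dbl l (Function.update x e false) ++
          (cluster (Step.ins e :: l) x).toList.map (fun y => Step.ins (e, y))) =
          lift (alive l) {y | y ∈ cluster l (Function.update x e false)} ∪
            {f | f.1 = e ∧ f.2 ∈ cluster (Step.ins e :: l) x} := by
        rw [alive_append, ih hl.1, hins]
        · congr 1
          ext f
          simp only [Finset.mem_toList, Set.mem_ofPred_eq]
          constructor
          · rintro ⟨a, ha, rfl⟩; exact ⟨rfl, ha⟩
          · rintro ⟨ha, hb⟩; exact ⟨f.2, hb, Prod.ext ha.symm rfl⟩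
        · intro f hf
          rw [hins]
          rintro ⟨a, ha, rfl⟩
          exact (hd false _ hf).1 rfl
      rw [dbl, alive_append, h1, ih hl.1]
      · ext f
        simp only [lift, Set.mem_union, Set.mem_ofPred_eq, alive, Set.mem_insert_iff,
          mem_cluster_update hl.2.1]
        constructor
        · rintro (h | h | h)
          · exact ⟨Or.inr h.1, h.2.1⟩
          · exact ⟨Or.inr h.1, h.2.1⟩
          · exact ⟨Or.inl h.1, h.2⟩
        · rintro ⟨h | h, h2⟩
          · exact Or.inr (Or.inr ⟨h, h2⟩)
          · cases hy : f.2 e
            · exact Or.inr (Or.inl ⟨h, h2, rfl⟩)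
            · exact Or.inl ⟨h, h2, rfl⟩
      · intro f hf
        rw [h1]
        rintro (h | h)
        · have h3 := hd true _ hf
          have h4 : f.2 e = false := by
            have := h.2
            simp only [Set.mem_ofPred_eq, mem_cluster_update hl.2.1] at this
            exact this.2
          rw [h3.2] at h4
          exact absurd h4 (by simp)
        · exact (hd true _ hf).1 h.1
    | del e =>
      rw [dbl, alive_map_del, ih hl.1, cluster_del]
      ext f
      simp only [lift, Set.mem_sdiff, Set.mem_ofPred_eq, Finset.mem_toList, alive,
        Set.mem_singleton_iff]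
      constructor
      · rintro ⟨⟨h1, h2⟩, h3⟩
        refine ⟨⟨h1, ?_⟩, h2⟩
        intro h
        exact h3 ⟨f.2, h2, Prod.ext h.symm rfl⟩
      · rintro ⟨⟨h1, h2⟩, h3⟩
        refine ⟨⟨h1, h3⟩, ?_⟩
        rintro ⟨a, ha, rfl⟩
        exact h2 rfl

end Cover

end Pool.Agent.Helper995.Reassign
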