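import Mathlib
import Pool.Agent.Helper995.Reassign.Cover

set_option autoImplicit false
set_option linter.unusedSectionVars false

open Classical

namespace Pool.Agent.Helper995.Reassign

section Certs

variable {V E : Type}

lemma cert_lift {p : E → Bool → V} {H : Set E} (h : Cert p H ∅) :
    Cert (cp p) {f : E × (E → Bool) | f.1 ∈ H} ∅ := by
  obtain ⟨d, h1, h2, h3⟩ := h
  refine ⟨fun w => d w.1, ?_, ?_, ?_⟩
  · intro f hf
    exact h1 f.1 hf
  · intro f hf s f' hf' s' heq hd hd'
    have e1 : p f.1 s = p f'.1 s' := congrArg Prod.fst heq
    have e2 : flipAt f.1 s f.2 = flipAt f'.1 s' f'.2 := congrArg Prod.snd heq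
    have e3 : f.1 = f'.1 := h2 f.1 hf s f'.1 hf' s' e1 hd hd'
    have hne : p f.1 false ≠ p f.1 true := fun h => h1 f.1 hf (congrArg d h)
    have e4 : s = s' := by
      rw [← e3] at e1
      cases s <;> cases s'
      · rfl
      · exact absurd e1 hne
      · exact absurd e1.symm hne
      · rfl
    rw [← e3, ← e4] at e2
    exact Prod.ext e3 (flipAt_inj e2)
  · intro f hf s hs
    exact absurd hs (by simp)

lemma cp_match {p : E → Bool → V} {e : E} (hne : p e false ≠ p e true) {y y' : E → Bool}
    {s s' : Bool} (h : cp p (e, y) s = cp p (e, y') s') : y = y' := by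
  have e1 : p e s = p e s' := congrArg Prod.fst h
  have e2 : flipAt e s y = flipAt e s' y' := congrArg Prod.snd h
  have e4 : s = s' := by
    cases s <;> cases s'
    · rfl
    · exact absurd e1 hne
    · exact absurd e1.symm hne
    · rfl
  rw [← e4] at e2
  exact flipAt_inj e2

lemma cert_match {p : E → Bool → V} {e : E} (hne : p e false ≠ p e true)
    {F : Set (E × (E → Bool))} {R : Set (V × (E → Bool))} (hF : ∀ f ∈ F, f.1 = e)
    (hR : ∀ f ∈ F, ∀ s, cp p f s ∉ R) : Cert (cp p) F R := by
  refine ⟨fun w => if w.2 e then 1 else 0, ?_, ?_, ?_⟩
  · rintro ⟨a, y⟩ hf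
    have : a = e := hF _ hf
    subst this
    show (if flipAt a false y a then 1 else 0) ≠ (if flipAt a true y a then 1 else 0)
    rw [flipAt_self, flipAt_self]
    cases y a <;> simp
  · rintro ⟨a, y⟩ hf s ⟨a', y'⟩ hf' s' heq - -
    have h1 : a = e := hF _ hf
    have h2 : a' = e := hF _ hf'
    subst h1
    subst h2
    have := cp_match hne heq
    rw [this]
  · intro f hf s hs
    exact absurd hs (hR f hf s)

lemma bool_eq_of_ne_not {a i : Bool} (h : ¬ a = !i) : a = i := by
  revert h; cases a <;> cases i <;> simp

lemma bool_eq_not_of_ne {a i : Bool} (h : ¬ a = i) : a = !i := by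
  revert h; cases a <;> cases i <;> simp

lemma bool_xor_not (a s : Bool) : xor a (!s) = !(xor a s) := by
  cases a <;> cases s <;> rfl

lemma cert_ext [Fintype V] [Fintype E] {p : E → Bool → V} {e : E} (hne : p e false ≠ p e true)
    (i : Bool) {H : Set E} (heH : e ∉ H) (hHc : Cert p H {p e false, p e true})
    {F : Set (E × (E → Bool))} {R : Set (V × (E → Bool))}
    (hF : ∀ f ∈ F, f.1 ≠ e ∧ f.2 e = i) (hR : ∀ w ∈ R, w.2 e = i) (hc : Cert (cp p) F R) :
    Cert (cp p) (F ∪ ({f | f.1 ∈ H ∧ f.2 e = !i} ∪ {f | f.1 = e})) R := by
  obtain ⟨δ, a1, a2, a3⟩ := hHc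
  obtain ⟨d, h1, h2, h3⟩ := hc
  obtain ⟨B, hB⟩ : ∃ B : ℕ, ∀ w, d w < B :=
    ⟨Finset.univ.sup d + 1, fun w => Nat.lt_succ_of_le (Finset.le_sup (Finset.mem_univ w))⟩
  -- the new heights
  obtain ⟨D, hD⟩ : ∃ D : V × (E → Bool) → ℕ, D = fun w => if w.2 e = i then d w else B + δ w.1 :=
    ⟨_, rfl⟩
  have Din : ∀ w : V × (E → Bool), w.2 e = i → D w = d w := by
    intro w hw; rw [hD]; exact if_pos hw
  have Dout : ∀ w : V × (E → Bool), w.2 e = (!i) → D w = B + δ w.1 := by
    intro w hw
    have : w.2 e ≠ i := by rw [hw]; cases i <;> simp
    rw [hD]; exact if_neg this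
  -- digits of the ends
  have dg1 : ∀ f : E × (E → Bool), f.1 ≠ e → ∀ s, (cp p f s).2 e = f.2 e := by
    intro f hf s
    exact flipAt_ne (Ne.symm hf) s f.2
  have dg2 : ∀ f : E × (E → Bool), f.1 = e → ∀ s, (cp p f s).2 e = xor (f.2 e) s := by
    rintro ⟨a, y⟩ hf s
    have hf' : a = e := hf
    subst hf'
    exact flipAt_self a s y
  have ends : ∀ f : E × (E → Bool), f.1 = e → ∀ s, (cp p f s).1 = p e s := by
    rintro ⟨a, y⟩ hf s
    have hf' : a = e := hf
    subst hf'
    rfl
  -- heights for the three classes
  have cF : ∀ f ∈ F, ∀ s, D (cp p f s) = d (cp p f s) := by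
    intro f hf s
    apply Din
    rw [dg1 f (hF f hf).1 s]
    exact (hF f hf).2
  have neH : ∀ a ∈ H, a ≠ e := by
    rintro a ha rfl; exact heH ha
  have cH : ∀ f : E × (E → Bool), f.1 ∈ H → f.2 e = (!i) → ∀ s, D (cp p f s) = B + δ (p f.1 s) := by
    intro f hf hfe s
    apply Dout
    rw [dg1 f (neH _ hf) s]
    exact hfe
  -- an `e`-task goes down only from the other side
  have cE : ∀ f : E × (E → Bool), f.1 = e → ∀ s, D (cp p f (!s)) < D (cp p f s) →
      (cp p f s).2 e = !i := by
    intro f hf s hlt
    by_contra hcon
    have hs : (cp p f s).2 e = i := bool_eq_of_ne_not hcon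
    have hs' : (cp p f (!s)).2 e = !i := by
      rw [dg2 f hf] at hs ⊢
      rw [← hs]
      exact bool_xor_not _ _
    rw [Din _ hs, Dout _ hs'] at hlt
    have := hB (cp p f s)
    omega
  refine ⟨D, ?_, ?_, ?_⟩
  · rintro f (hf | ⟨hf, hfe⟩ | hf)
    · rw [cF f hf, cF f hf]
      exact h1 f hf
    · rw [cH f hf hfe, cH f hf hfe]
      intro h
      exact a1 f.1 hf (by omega)
    · have hf' : f.1 = e := hf
      intro heq
      have k1 := dg2 f hf' false
      have k2 := dg2 f hf' true
      by_cases hfi : f.2 e = i
      · have l1 : (cp p f false).2 e = i := by rw [k1, hfi]; simp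
        have l2 : (cp p f true).2 e = !i := by rw [k2, hfi]; simp
        rw [Din _ l1, Dout _ l2] at heq
        have := hB (cp p f false)
        omega
      · have hfi' : f.2 e = !i := bool_eq_not_of_ne hfi
        have l1 : (cp p f false).2 e = !i := by
          rw [k1, hfi']; simp
        have l2 : (cp p f true).2 e = i := by
          rw [k2, hfi']; simp
        rw [Dout _ l1, Din _ l2] at heq
        have := hB (cp p f true)
        omega
  · have key : ∀ f ∈ F, ∀ s, ∀ f' ∈ ({f | f.1 ∈ H ∧ f.2 e = !i} ∪ {f | f.1 = e} :
        Set (E × (E → Bool))), ∀ s', cp p f s = cp p f' s' →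
        D (cp p f' (!s')) < D (cp p f' s') → False := by
      rintro f hf s f' (⟨hf', hfe'⟩ | hf') s' heq hlt
      · have k1 := dg1 f (hF f hf).1 s
        rw [heq, dg1 f' (neH _ hf') s', hfe', (hF f hf).2] at k1
        cases i <;> simp at k1
      · have k1 := dg1 f (hF f hf).1 s
        have k2 := cE f' hf' s' hlt
        rw [heq, k2, (hF f hf).2] at k1
        cases i <;> simp at k1
    have key2 : ∀ f : E × (E → Bool), f.1 ∈ H → f.2 e = (!i) → ∀ s, ∀ f' : E × (E → Bool),
        f'.1 = e → ∀ s', cp p f s = cp p f' s' →
        D (cp p f (!s)) < D (cp p f s) → False := by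
      intro f hf hfe s f' hf' s' heq hlt
      rw [cH f hf hfe, cH f hf hfe] at hlt
      have k1 : p f.1 s = p e s' := by
        have := congrArg Prod.fst heq
        rw [ends f' hf' s'] at this
        exact this
      refine a3 f.1 hf s ?_ (by omega)
      rw [k1]
      cases s'
      · exact Or.inl rfl
      · exact Or.inr rfl
    rintro f hfm s f' hfm' s' heq hlt hlt'
    rcases hfm with hf | hf
    · rcases hfm' with hf' | hf'
      · rw [cF f hf, cF f hf] at hlt
        rw [cF f' hf', cF f' hf'] at hlt'
        exact h2 f hf s f' hf' s' heq hlt hlt'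
      · exact (key f hf s f' hf' s' heq hlt').elim
    · rcases hfm' with hf' | hf'
      · exact (key f' hf' s' f hf s heq.symm hlt).elim
      · rcases hf with ⟨hf, hfe⟩ | hf
        · rcases hf' with ⟨hf', hfe'⟩ | hf'
          · rw [cH f hf hfe, cH f hf hfe] at hlt
            rw [cH f' hf' hfe', cH f' hf' hfe'] at hlt'
            have e1 : p f.1 s = p f'.1 s' := congrArg Prod.fst heq
            have e2 : flipAt f.1 s f.2 = flipAt f'.1 s' f'.2 := congrArg Prod.snd heq
            have e3 : f.1 = f'.1 := a2 f.1 hf s f'.1 hf' s' e1 (by omega) (by omega)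
            have hne' : p f.1 false ≠ p f.1 true := fun h => a1 f.1 hf (congrArg δ h)
            have e4 : s = s' := by
              rw [← e3] at e1
              cases s <;> cases s'
              · rfl
              · exact absurd e1 hne'
              · exact absurd e1.symm hne'
              · rfl
            rw [← e3, ← e4] at e2
            exact Prod.ext e3 (flipAt_inj e2)
          · exact (key2 f hf hfe s f' hf' s' heq hlt).elim
        · rcases hf' with ⟨hf', hfe'⟩ | hf'
          · exact (key2 f' hf' hfe' s' f hf s heq.symm hlt').elim
          · obtain ⟨a, y⟩ := f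
            obtain ⟨a', y'⟩ := f'
            have q1 : a = e := hf
            have q2 : a' = e := hf'
            subst q1
            subst q2
            rw [cp_match hne heq]
  · rintro f (hf | ⟨hf, hfe⟩ | hf) s hs hlt
    · rw [cF f hf, cF f hf] at hlt
      exact h3 f hf s hs hlt
    · have := hR _ hs
      rw [dg1 f (neH _ hf) s, hfe] at this
      cases i <;> simp at this
    · have k1 := cE f hf s hlt
      rw [hR _ hs] at k1
      cases i <;> simp at k1

lemma good_map_pulse {A : Type} {p : E → Bool → V} (L : List A) (g : A → V)
    (L0 : List (Step V E)) (h : Good p L0) :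
    Good p ((L.map fun a => (Step.pulse (g a) : Step V E)) ++ L0) := by
  induction L with
  | nil => simpa using h
  | cons a L ih => simpa [Good] using ih

lemma good_map_del {A : Type} {p : E → Bool → V} (L : List A) (g : A → E)
    (hg : Function.Injective g) (hL : L.Nodup) (L0 : List (Step V E)) (h : Good p L0)
    (hal : ∀ a ∈ L, g a ∈ alive L0) :
    Good p ((L.map fun a => (Step.del (g a) : Step V E)) ++ L0) := by
  induction L with
  | nil => simpa using h
  | cons a L ih =>
    rw [List.nodup_cons] at hL
    refine ⟨ih hL.2 (fun b hb => hal b (List.mem_cons_of_mem _ hb)), ?_⟩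
    show g a ∈ alive ((L.map fun a => (Step.del (g a) : Step V E)) ++ L0)
    rw [alive_map_del]
    refine ⟨hal a List.mem_cons_self, ?_⟩
    rintro ⟨b, hb, hab⟩
    exact hL.1 (hg hab ▸ hb)

lemma good_map_ins {p : E → Bool → V} {e : E} (hne : p e false ≠ p e true)
    (L : List (E → Bool)) (hL : L.Nodup) :
    Good (cp p) (L.map fun y => Step.ins (e, y)) := by
  induction L with
  | nil => exact trivial
  | cons y L ih =>
    rw [List.nodup_cons] at hL
    have hal := alive_map_ins (V' := V × (E → Bool)) L (fun y => (e, y))
    refine ⟨ih hL.2, ?_, ?_, ?_, ?_⟩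
    · show Step.ins (e, y) ∉ L.map fun y => Step.ins (e, y)
      simp only [List.mem_map, Step.ins.injEq, Prod.mk.injEq, true_and, exists_eq_right]
      exact hL.1
    · intro h
      exact hne (congrArg Prod.fst h)
    · show Cert (cp p) (alive (L.map fun y => Step.ins (e, y))) _
      rw [hal]
      apply cert_match hne
      · rintro f ⟨a, -, rfl⟩; rfl
      · rintro f ⟨a, ha, rfl⟩ s hs
        have : a = y := by
          rcases hs with hs | hs
          · exact cp_match hne hs
          · exact cp_match hne hs
        rw [this] at ha
        exact hL.1 ha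
    · show Cert (cp p) (insert (e, y) (alive (L.map fun y => Step.ins (e, y)))) _
      rw [hal]
      apply cert_match hne
      · rintro f (rfl | ⟨a, -, rfl⟩) <;> rfl
      · intro f _ s hs
        exact absurd hs (by simp)

lemma good_dbl [Fintype V] [Fintype E] {p : E → Bool → V} (l : List (Step V E)) (hl : Good p l)
    (x : E → Bool) : Good (cp p) (dbl l x) := by
  induction l generalizing x with
  | nil =>
    have := good_map_pulse (p := cp p) (Finset.univ : Finset V).toList (fun v => (v, x)) []
      trivial
    rw [List.append_nil] at this
    exact this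
  | cons s l ih =>
    cases s with
    | pulse v => exact good_map_pulse _ _ _ (ih hl x)
    | del e =>
      refine good_map_del _ _ ?_ (Finset.nodup_toList _) _ (ih hl.1 x) ?_
      · intro a b hab
        exact congrArg Prod.snd hab
      · intro y hy
        rw [Finset.mem_toList] at hy
        rw [alive_dbl l hl.1 x]
        exact ⟨hl.2, hy⟩
    | ins e =>
      obtain ⟨g1, g2, g3, g4, g5⟩ := hl
      have heal : e ∉ alive l := fun h => g2 (ins_mem_of_alive h)
      -- the arrivals
      have hI : Good (cp p) ((cluster (.ins e :: l) x).toList.map (fun y => Step.ins (e, y))) :=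
        good_map_ins g3 _ (Finset.nodup_toList _)
      have haI := alive_map_ins (V' := V × (E → Bool)) (cluster (.ins e :: l) x).toList
        (fun y => (e, y))
      -- common facts on the running half
      have hES : ∀ (i : Bool) (f : E × (E → Bool)),
          Step.ins f ∈ dbl l (Function.update x e i) →
          f ∈ {f : E × (E → Bool) | Step.ins f.1 ∈ l ∧ f.2 ∈ cluster l (Function.update x e i)} := by
        intro i f hf
        exact (dbl_ins_mem l g1 _ f.1 f.2).1 hf
      have hpt : ∀ (i : Bool), ∀ f ∈ {f : E × (E → Bool) | Step.ins f.1 ∈ l ∧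
          f.2 ∈ cluster l (Function.update x e i)}, ∀ s,
          cp p f s ∈ {w : V × (E → Bool) | w.2 ∈ cluster l (Function.update x e i)} := by
        rintro i f ⟨hf1, hf2⟩ s
        exact flipAt_mem_cluster hf1 s hf2
      have hF : ∀ (i : Bool) (F : Set (E × (E → Bool))),
          F ⊆ {f : E × (E → Bool) | Step.ins f.1 ∈ l ∧
            f.2 ∈ cluster l (Function.update x e i)} → ∀ f ∈ F, f.1 ≠ e ∧ f.2 e = i := by
        intro i F hF f hf
        have := hF hf
        refine ⟨?_, ((mem_cluster_update g2).1 this.2).2⟩
        intro h
        apply g2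
        rw [← h]
        exact this.1
      have hR : ∀ (i : Bool) (R : Set (V × (E → Bool))),
          R ⊆ {w : V × (E → Bool) | w.2 ∈ cluster l (Function.update x e i)} →
          ∀ w ∈ R, w.2 e = i := by
        intro i R hR w hw
        exact ((mem_cluster_update g2).1 (hR hw)).2
      -- first half
      have h0 : Good (cp p) (dbl l (Function.update x e false) ++
          (cluster (.ins e :: l) x).toList.map (fun y => Step.ins (e, y))) := by
        refine good_append _ _ _ _ (ih g1 _) hI (hES false) (hpt false) ?_ ?_
        · rintro f ⟨hf, -⟩ hmem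
          simp only [List.mem_map, Step.ins.injEq] at hmem
          obtain ⟨a, -, rfl⟩ := hmem
          exact g2 hf
        · intro F hFs R hRs hc
          have := cert_ext g3 false (H := ∅) (by simp) (Cert.empty _) (hF false F hFs)
            (hR false R hRs) hc
          refine this.mono ?_ (le_refl _)
          apply Set.union_subset_union_right
          rw [haI]
          rintro f ⟨a, -, rfl⟩
          exact Or.inr rfl
      have ha0 : alive (dbl l (Function.update x e false) ++
          (cluster (.ins e :: l) x).toList.map (fun y => Step.ins (e, y))) ⊆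
          {f | f.1 ∈ alive l ∧ f.2 e = !true} ∪ {f | f.1 = e} := by
        rw [alive_append, alive_dbl l g1, haI]
        · rintro f (⟨hf1, hf2⟩ | ⟨a, -, rfl⟩)
          · exact Or.inl ⟨hf1, ((mem_cluster_update g2).1 hf2).2⟩
          · exact Or.inr rfl
        · intro f hf
          have := (dbl_del_mem l g1 _ f.1 f.2 hf).1
          rw [haI]
          rintro ⟨a, -, rfl⟩
          exact g2 this
      refine good_append _ _ _ _ (ih g1 _) h0 (hES true) (hpt true) ?_ ?_
      · rintro f ⟨hf, hf2⟩ hmem
        rw [List.mem_append] at hmem
        rcases hmem with hmem | hmem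
        · have h1 := (dbl_ins_mem l g1 _ f.1 f.2).1 hmem
          have h2 := ((mem_cluster_update g2).1 h1.2).2
          have h3 := ((mem_cluster_update g2).1 hf2).2
          rw [h2] at h3
          exact absurd h3 (by simp)
        · simp only [List.mem_map, Step.ins.injEq] at hmem
          obtain ⟨a, -, rfl⟩ := hmem
          exact g2 hf
      · intro F hFs R hRs hc
        have := cert_ext g3 true heal g4 (hF true F hFs) (hR true R hRs) hc
        refine this.mono ?_ (le_refl _)
        apply Set.union_subset_union_right
        exact ha0

end Certs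

section Alternations

variable {V E : Type}

lemma Good.ne {p : E → Bool → V} {l : List (Step V E)} (h : Good p l) {e : E}
    (he : Step.ins e ∈ l) : p e false ≠ p e true := by
  induction l with
  | nil => simp at he
  | cons s l ih =>
    cases s with
    | pulse v =>
      simp only [List.mem_cons, reduceCtorEq, false_or] at he
      exact ih h he
    | ins e' =>
      simp only [List.mem_cons, Step.ins.injEq] at he
      rcases he with rfl | he
      · exact h.2.2.1
      · exact ih h.1 he
    | del e' =>
      simp only [List.mem_cons, reduceCtorEq, false_or] at he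
      exact ih h.1 he

lemma alt_zero {p : E → Bool → V} {l : List (Step V E)} {e : E} (he : Step.ins e ∉ l) :
    alt p e l = 0 := by
  induction l with
  | nil => rfl
  | cons s l ih =>
    have ih' := ih (fun h => he (List.mem_cons_of_mem _ h))
    cases s with
    | pulse v =>
      have : e ∉ alive l := fun h => he (List.mem_cons_of_mem _ (ins_mem_of_alive h))
      simp [alt, ih', this]
    | ins e' => simpa [alt] using ih'
    | del e' => simpa [alt] using ih'

lemma last_map_del {A : Type} {p : E → Bool → V} (f : E) (L : List A) (g : A → E)
    (L0 : List (Step V E)) :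
    last p f ((L.map fun a => (Step.del (g a) : Step V E)) ++ L0) = last p f L0 ∧
    alt p f ((L.map fun a => (Step.del (g a) : Step V E)) ++ L0) = alt p f L0 := by
  induction L with
  | nil => simp
  | cons a L ih => simpa [last, alt] using ih

lemma alt_dbl [Fintype V] [Fintype E] {p : E → Bool → V} (l : List (Step V E)) (hl : Good p l)
    (x : E → Bool) (e : E) (he : Step.ins e ∈ l) (y : E → Bool) (hy : y ∈ cluster l x) :
    alt p e l + 1 ≤ alt (cp p) (e, y) (dbl l x) ∧
      ∀ s, last p e l = some s → last (cp p) (e, y) (dbl l x) = some s := by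
  induction l generalizing x with
  | nil => simp at he
  | cons st l ih =>
    cases st with
    | pulse v =>
      have he' : Step.ins e ∈ l := by simpa using he
      rw [cluster_pulse] at hy
      obtain ⟨i1, i2⟩ := ih hl x he' hy
      have hl' : Good p l := hl
      have hne := hl'.ne he'
      have hne' : cp p (e, y) false ≠ cp p (e, y) true := fun h => hne (congrArg Prod.fst h)
      rw [dbl]
      by_cases hv : ∃ s, v = p e s
      · obtain ⟨s, hs⟩ := hv
        have hns : p e (!s) ≠ p e s := by
          cases s
          · exact hne.symm
          · exact hne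
        obtain ⟨j1, j2, j3⟩ := side_append (p := cp p) (f := (e, y)) hne' s
          ((cluster l x).toList.map (fun y => Step.pulse (v, y))) (dbl l x)
          (by simp) (by simp)
          (by
            simp only [List.mem_map, Finset.mem_toList, Step.pulse.injEq, not_exists, not_and]
            intro a _ h
            have h1 : v = p e (!s) := congrArg Prod.fst h
            exact hns (h1.symm.trans hs))
          (by
            simp only [List.mem_map, Finset.mem_toList, Step.pulse.injEq]
            exact ⟨flipAt e s y, flipAt_mem_cluster he' s hy, by rw [hs]; rfl⟩)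
        constructor
        · refine le_trans ?_ j3
          simp only [alt]
          by_cases hc : e ∈ alive l ∧ ∃ s, v = p e s ∧ last p e l = some (!s)
          · rw [if_pos hc]
            obtain ⟨c1, s', c2, c3⟩ := hc
            have hss : s' = s := by
              by_contra hcon
              have : s' = !s := by cases s <;> cases s' <;> simp_all
              rw [this] at c2
              exact hns (c2.symm.trans hs)
            rw [hss] at c3
            rw [if_pos]
            · omega
            · refine ⟨?_, i2 _ c3⟩
              rw [alive_dbl l hl' x]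
              exact ⟨c1, hy⟩
          · rw [if_neg hc]
            omega
        · intro s' hs'
          have : last p e (Step.pulse v :: l) = some s := by
            rw [hs]
            cases s
            · simp [last]
            · simp [last, hne.symm]
          rw [this] at hs'
          rw [j1, hs']
      · have hun : Untouched (cp p) (e, y)
            ((cluster l x).toList.map (fun y => Step.pulse (v, y))) := by
          refine ⟨by simp, by simp, ?_, ?_⟩
          · simp only [List.mem_map, Finset.mem_toList, Step.pulse.injEq, not_exists, not_and]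
            intro a _ h
            exact hv ⟨false, congrArg Prod.fst h⟩
          · simp only [List.mem_map, Finset.mem_toList, Step.pulse.injEq, not_exists, not_and]
            intro a _ h
            exact hv ⟨true, congrArg Prod.fst h⟩
        obtain ⟨j1, j2, j3⟩ := untouched_append _ (dbl l x) hun
        have hv1 : v ≠ p e false := fun h => hv ⟨_, h⟩
        have hv2 : v ≠ p e true := fun h => hv ⟨_, h⟩
        rw [j1, j2]
        constructor
        · simp only [alt]
          rw [if_neg]
          · simpa using i1
          · rintro ⟨-, s, hs, -⟩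
            exact hv ⟨s, hs⟩
        · intro s hs
          apply i2
          simpa [last, hv1, hv2] using hs
    | del e' =>
      have he' : Step.ins e ∈ l := by simpa using he
      rw [cluster_del] at hy
      obtain ⟨i1, i2⟩ := ih hl.1 x he' hy
      rw [dbl]
      obtain ⟨j1, j2⟩ := last_map_del (p := cp p) (e, y) (cluster l x).toList
        (fun y => (e', y)) (dbl l x)
      rw [j1, j2]
      exact ⟨i1, i2⟩
    | ins e' =>
      obtain ⟨g1, g2, g3, g4, g5⟩ := hl
      rw [dbl]
      by_cases hee : e' = e
      · subst hee
        have hne' : cp p (e', y) false ≠ cp p (e', y) true := fun h => g3 (congrArg Prod.fst h)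
        have hfl : ∀ s, flipAt e' s y ∈ cluster (.ins e' :: l) x := fun s =>
          flipAt_mem_cluster List.mem_cons_self s hy
        have hnin : ∀ i, Step.ins (e', y) ∉ dbl l (Function.update x e' i) := by
          intro i h
          exact g2 ((dbl_ins_mem l g1 _ _ _).1 h).1
        have hndel : ∀ i, Step.del (e', y) ∉ dbl l (Function.update x e' i) := by
          intro i h
          exact g2 (dbl_del_mem l g1 _ _ _ h).1
        have hpl : ∀ i s, Step.pulse (cp p (e', y) s) ∈ dbl l (Function.update x e' i) ↔
            xor (y e') s = i := by
          intro i s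
          show Step.pulse (p e' s, flipAt e' s y) ∈ _ ↔ _
          rw [dbl_pulse_mem l g1, mem_cluster_update g2, flipAt_self]
          exact ⟨fun h => h.2, fun h => ⟨hfl s, h⟩⟩
        obtain ⟨j1, j2, j3⟩ := side_append (p := cp p) (f := (e', y)) hne' (y e')
          (dbl l (Function.update x e' false))
          ((cluster (.ins e' :: l) x).toList.map (fun y => Step.ins (e', y)))
          (hnin _) (hndel _)
          (by rw [hpl]; cases y e' <;> simp)
          (by rw [hpl]; cases y e' <;> simp)
        obtain ⟨k1, k2, k3⟩ := side_append (p := cp p) (f := (e', y)) hne' (!(y e'))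
          (dbl l (Function.update x e' true))
          (dbl l (Function.update x e' false) ++
            (cluster (.ins e' :: l) x).toList.map (fun y => Step.ins (e', y)))
          (hnin _) (hndel _)
          (by rw [hpl]; cases y e' <;> simp)
          (by rw [hpl]; cases y e' <;> simp)
        have hal : (e', y) ∈ alive (dbl l (Function.update x e' false) ++
            (cluster (.ins e' :: l) x).toList.map (fun y => Step.ins (e', y))) := by
          rw [j2, alive_map_ins]
          exact ⟨y, Finset.mem_toList.2 hy, rfl⟩
        constructor
        · refine le_trans ?_ k3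
          rw [if_pos ⟨hal, by rw [j1]; simp⟩]
          have : alt p e' (Step.ins e' :: l) = 0 := by
            simp [alt, alt_zero g2]
          rw [this]
          omega
        · intro s hs
          simp [last] at hs
      · have he' : Step.ins e ∈ l := by
          rw [List.mem_cons] at he
          rcases he with he | he
          · exact absurd (Step.ins.inj he).symm hee
          · exact he
        have hunI : Untouched (cp p) (e, y)
            ((cluster (.ins e' :: l) x).toList.map (fun y => Step.ins (e', y))) := by
          refine ⟨?_, by simp, by simp, by simp⟩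
          simp only [List.mem_map, Finset.mem_toList, Step.ins.injEq, Prod.mk.injEq, not_exists,
            not_and]
          intro a _ h
          exact absurd h hee
        have hun : ∀ i, y e' ≠ i → Untouched (cp p) (e, y) (dbl l (Function.update x e' i)) := by
          intro i hi
          have hp : ∀ s, Step.pulse (cp p (e, y) s) ∉ dbl l (Function.update x e' i) := by
            intro s hs
            have hs' : Step.pulse (p e s, flipAt e s y) ∈ dbl l (Function.update x e' i) := hs
            rw [dbl_pulse_mem l g1, mem_cluster_update g2, flipAt_ne hee] at hs'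
            exact hi hs'.2
          refine ⟨?_, ?_, hp _, hp _⟩
          · intro h
            exact hi ((mem_cluster_update g2).1 ((dbl_ins_mem l g1 _ _ _).1 h).2).2
          · intro h
            exact hi ((mem_cluster_update g2).1 (dbl_del_mem l g1 _ _ _ h).2).2
        have hlast : last p e (Step.ins e' :: l) = last p e l := by simp [last, hee]
        have halt : alt p e (Step.ins e' :: l) = alt p e l := rfl
        rw [hlast, halt]
        cases hi : y e'
        · have hy' : y ∈ cluster l (Function.update x e' false) :=
            (mem_cluster_update g2).2 ⟨hy, hi⟩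
          obtain ⟨i1, i2⟩ := ih g1 _ he' hy'
          obtain ⟨a1, a2, a3⟩ := untouched_append (dbl l (Function.update x e' true))
            (dbl l (Function.update x e' false) ++
            (cluster (.ins e' :: l) x).toList.map (fun y => Step.ins (e', y)))
            (hun true (by rw [hi]; simp))
          obtain ⟨b1, b2, b3⟩ := untouched_past (dbl l (Function.update x e' false)) _ hunI
          rw [a1, a2, b1, b2]
          exact ⟨i1, i2⟩
        · have hy' : y ∈ cluster l (Function.update x e' true) :=
            (mem_cluster_update g2).2 ⟨hy, hi⟩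
          obtain ⟨i1, i2⟩ := ih g1 _ he' hy'
          have hun0 : Untouched (cp p) (e, y) (dbl l (Function.update x e' false) ++
              (cluster (.ins e' :: l) x).toList.map (fun y => Step.ins (e', y))) := by
            obtain ⟨u1, u2, u3, u4⟩ := hun false (by rw [hi]; simp)
            obtain ⟨w1, w2, w3, w4⟩ := hunI
            refine ⟨?_, ?_, ?_, ?_⟩ <;> rw [List.mem_append, not_or]
            · exact ⟨u1, w1⟩
            · exact ⟨u2, w2⟩
            · exact ⟨u3, w3⟩
            · exact ⟨u4, w4⟩
          obtain ⟨b1, b2, b3⟩ := untouched_past (dbl l (Function.update x e' true)) _ hun0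
          rw [b1, b2]
          exact ⟨i1, i2⟩

end Alternations

/-- The systems: `2q` machines, `mq` tasks, `2mq` events, `2Mq` pulses, at least `M` alternations
for each task. -/
theorem exists_system (m M : ℕ) :
    ∃ (V E : Type) (_ : Fintype V) (_ : Fintype E) (p : E → Bool → V) (l : List (Step V E))
      (q : ℕ), 0 < q ∧ Fintype.card V = 2 * q ∧ Fintype.card E = m * q ∧
        pulses l = 2 * M * q ∧ events l = 2 * m * q ∧ Good p l ∧ (∀ e, Step.ins e ∈ l) ∧
        (∀ e, M ≤ alt p e l) := by
  induction M with
  | zero =>
    -- base: two machines and `m` tasks, each arriving and departing at once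
    let p : Fin m → Bool → Bool := fun _ s => s
    have hbase : ∀ L : List (Fin m), L.Nodup → ∃ l : List (Step Bool (Fin m)),
        pulses l = 0 ∧ events l = 2 * L.length ∧ Good p l ∧ alive l = ∅ ∧
        (∀ e, Step.ins e ∈ l ↔ e ∈ L) := by
      intro L
      induction L with
      | nil => exact fun _ => ⟨[], rfl, rfl, trivial, rfl, by simp⟩
      | cons e L ih =>
        intro hL
        rw [List.nodup_cons] at hL
        obtain ⟨l, h1, h2, h3, h4, h5⟩ := ih hL.2
        refine ⟨.del e :: .ins e :: l, ?_, ?_, ?_, ?_, ?_⟩
        · simpa [pulses] using h1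
        · simp only [events, h2, List.length_cons]; ring
        · refine ⟨⟨h3, ?_, by simp [p], ?_, ?_⟩, ?_⟩
          · rw [h5]; exact hL.1
          · rw [h4]; exact Cert.empty _
          · rw [h4]
            refine ⟨fun b => if b then 1 else 0, ?_, ?_, ?_⟩
            · intro e _; simp [p]
            · intro a ha s b hb s' _ _ _
              simp only [insert_empty_eq, Set.mem_singleton_iff] at ha hb
              rw [ha, hb]
            · intro a _ s hs
              exact absurd hs (by simp)
          · exact Set.mem_insert _ _
        · simp [alive, h4]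
        · intro a
          simp only [List.mem_cons, reduceCtorEq, false_or, Step.ins.injEq, h5]
    obtain ⟨l, h1, h2, h3, h4, h5⟩ := hbase Finset.univ.toList (Finset.nodup_toList _)
    refine ⟨Bool, Fin m, inferInstance, inferInstance, p, l, 1, one_pos, by simp, by simp,
      by simpa using h1, ?_, h3, ?_, fun _ => Nat.zero_le _⟩
    · rw [h2, Finset.length_toList]; simp
    · intro e
      rw [h5, Finset.mem_toList]
      exact Finset.mem_univ e
  | succ M ih =>
    obtain ⟨V, E, iV, iE, p, l, q, hq, hV, hE, hp, hev, hg, hin, halt⟩ := ih
    have hcl : ∀ x : E → Bool, cluster l x = Finset.univ := by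
      intro x
      ext y
      rw [mem_cluster]
      simp [hin]
    have hcard : (Finset.univ : Finset (E → Bool)).card = 2 ^ Fintype.card E := by
      rw [Finset.card_univ, Fintype.card_fun, Fintype.card_bool]
    refine ⟨V × (E → Bool), E × (E → Bool), inferInstance, inferInstance, cp p,
      dbl l (fun _ => false), 2 ^ Fintype.card E * q, by positivity, ?_, ?_, ?_, ?_,
      good_dbl l hg _, ?_, ?_⟩
    · rw [Fintype.card_prod, hV, Fintype.card_fun, Fintype.card_bool]; ring
    · rw [Fintype.card_prod, Fintype.card_fun, Fintype.card_bool, hE]; ring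
    · rw [pulses_dbl l hg, hcl, hcard, hV, hp]; ring
    · rw [events_dbl l hg, hcl, hcard, hev]; ring
    · rintro ⟨e, y⟩
      rw [dbl_ins_mem l hg, hcl]
      exact ⟨hin e, Finset.mem_univ _⟩
    · rintro ⟨e, y⟩
      have := (alt_dbl l hg (fun _ => false) e (hin e) y (by rw [hcl]; exact Finset.mem_univ _)).1
      have h2 := halt e
      omega

end Pool.Agent.Helper995.Reassign
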