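import Mathlib
import Pool.Agent.Helper995.Reassign.Main

set_option autoImplicit false
set_option linter.unusedSectionVars false

open Classical

namespace Pool.Agent.Helper995.Reassign

variable {V E : Type}

/-- Indicator: the task is alive and sits at the end pulsed last. -/
noncomputable def gam (p : E → Bool → V) (f : ℕ → E → V) (l : List (Step V E)) (e : E) : ℕ :=
  if e ∈ alive l ∧ ∃ s, last p e l = some s ∧ f (events l) e = p e s then 1 else 0

lemma flip_bound [Fintype E] {p : E → Bool → V} (hne : ∀ e, p e false ≠ p e true)
    (L : List (Step V E)) (f : ℕ → E → V) (k : ℕ → ℕ) (c : ℕ)
    (hend : ∀ l, l <:+ L → ∀ e ∈ alive l,
      f (events l) e = p e false ∨ f (events l) e = p e true)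
    (hload : ∀ l, l <:+ L → ∀ v,
      (Finset.univ.filter (fun e => e ∈ alive l ∧ f (events l) e = v)).card ≤ c)
    (hk : ∀ s l, (s :: l) <:+ L → events (s :: l) = events l + 1 →
      (Finset.univ.filter (fun e => e ∈ alive l ∧ e ∈ alive (s :: l) ∧
        f (events l) e ≠ f (events l + 1) e)).card ≤ k (events l)) :
    ∑ e, alt p e L ≤ ∑ t ∈ Finset.range (events L), k t + 2 * c * pulses L := by
  have main : ∀ l, l <:+ L →
      ∑ e, (alt p e l + gam p f l e) ≤ ∑ t ∈ Finset.range (events l), k t + 2 * c * pulses l := by
    intro l
    induction l with
    | nil =>
      intro _
      simp [alt, gam, alive, events, pulses]
    | cons s l ih =>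
      intro hs
      have hl : l <:+ L := (List.suffix_cons s l).trans hs
      have ih' := ih hl
      cases s with
      | pulse v =>
        have hle : ∀ e ∈ (Finset.univ : Finset E),
            alt p e (Step.pulse v :: l) + gam p f (Step.pulse v :: l) e ≤
              (alt p e l + gam p f l e) +
                2 * (if e ∈ alive l ∧ f (events l) e = v then 1 else 0) := by
          intro e _
          have hev : events (Step.pulse v :: l) = events l := rfl
          have hal : alive (Step.pulse v :: l) = alive l := rfl
          by_cases ha : e ∈ alive l
          · by_cases hv : ∃ s, v = p e s
            · obtain ⟨s, hs⟩ := hv
              have hns : p e (!s) ≠ p e s := by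
                cases s
                · exact (hne e).symm
                · exact hne e
              have hlast : last p e (Step.pulse v :: l) = some s := by
                rw [hs]
                cases s
                · simp [last]
                · simp [last, (hne e).symm]
              have hfe : f (events l) e = p e s ∨ f (events l) e = p e (!s) := by
                rcases hend l hl e ha with h | h
                · cases s
                  · exact Or.inl h
                  · exact Or.inr h
                · cases s
                  · exact Or.inr h
                  · exact Or.inl h
              rcases hfe with h | h
              · rw [if_pos (show e ∈ alive l ∧ f (events l) e = v from ⟨ha, h.trans hs.symm⟩)]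
                have h1 : alt p e (Step.pulse v :: l) ≤ alt p e l + 1 := by
                  simp only [alt]
                  split_ifs <;> omega
                have h2 : gam p f (Step.pulse v :: l) e ≤ 1 := by
                  unfold gam; split_ifs <;> omega
                omega
              · have hnv : f (events l) e ≠ v := by
                  rw [h, hs]; exact hns
                rw [if_neg (show ¬ (e ∈ alive l ∧ f (events l) e = v) from fun hh => hnv hh.2)]
                have h2 : gam p f (Step.pulse v :: l) e = 0 := by
                  unfold gam
                  rw [if_neg]
                  rintro ⟨-, s', hs1, hs2⟩
                  rw [hlast] at hs1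
                  rw [← Option.some.inj hs1, hev] at hs2
                  rw [h] at hs2
                  exact hns hs2
                rw [h2]
                simp only [alt]
                by_cases hc : e ∈ alive l ∧ ∃ s, v = p e s ∧ last p e l = some (!s)
                · rw [if_pos hc]
                  have : gam p f l e = 1 := by
                    unfold gam
                    rw [if_pos]
                    obtain ⟨-, s', c2, c3⟩ := hc
                    have hss : s' = s := by
                      by_contra hcon
                      have h3 : s' = !s := bool_eq_not_of_ne hcon
                      rw [h3] at c2
                      exact hns (c2.symm.trans hs)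
                    rw [hss] at c3
                    exact ⟨ha, !s, c3, h⟩
                  omega
                · rw [if_neg hc]
                  omega
            · have hv1 : v ≠ p e false := fun h => hv ⟨_, h⟩
              have hv2 : v ≠ p e true := fun h => hv ⟨_, h⟩
              have h1 : alt p e (Step.pulse v :: l) = alt p e l := by
                simp only [alt]
                rw [if_neg]
                · rfl
                · rintro ⟨-, s, hs, -⟩; exact hv ⟨s, hs⟩
              have h2 : last p e (Step.pulse v :: l) = last p e l := by
                simp [last, hv1, hv2]
              have h3 : gam p f (Step.pulse v :: l) e = gam p f l e := by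
                unfold gam
                rw [h2, hev, hal]
              rw [h1, h3]
              exact Nat.le_add_right _ _
          · have h1 : alt p e (Step.pulse v :: l) = alt p e l := by
              simp only [alt]
              rw [if_neg]
              · rfl
              · exact fun h => ha h.1
            have h3 : gam p f (Step.pulse v :: l) e = 0 := by
              unfold gam
              rw [if_neg]
              exact fun h => ha h.1
            rw [h1, h3]
            omega
        calc ∑ e, (alt p e (Step.pulse v :: l) + gam p f (Step.pulse v :: l) e)
            ≤ ∑ e, ((alt p e l + gam p f l e) +
                2 * (if e ∈ alive l ∧ f (events l) e = v then 1 else 0)) :=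
              Finset.sum_le_sum hle
          _ = ∑ e, (alt p e l + gam p f l e) +
                2 * (Finset.univ.filter (fun e => e ∈ alive l ∧ f (events l) e = v)).card := by
              rw [Finset.sum_add_distrib, ← Finset.mul_sum, Finset.card_filter]
          _ ≤ (∑ t ∈ Finset.range (events l), k t + 2 * c * pulses l) + 2 * c := by
              have := hload l hl v
              omega
          _ = ∑ t ∈ Finset.range (events (Step.pulse v :: l)), k t +
                2 * c * pulses (Step.pulse v :: l) := by
              simp only [events, pulses]; ring
      | ins e' =>
        have hle : ∀ e ∈ (Finset.univ : Finset E),
            alt p e (Step.ins e' :: l) + gam p f (Step.ins e' :: l) e ≤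
              (alt p e l + gam p f l e) +
                (if e ∈ alive l ∧ e ∈ alive (Step.ins e' :: l) ∧
                  f (events l) e ≠ f (events l + 1) e then 1 else 0) := by
          intro e _
          have h1 : alt p e (Step.ins e' :: l) = alt p e l := rfl
          rw [h1]
          have hev : events (Step.ins e' :: l) = events l + 1 := rfl
          by_cases hg : gam p f (Step.ins e' :: l) e = 0
          · rw [hg]; omega
          · have hg1 : gam p f (Step.ins e' :: l) e = 1 := by
              unfold gam at hg ⊢
              split_ifs at hg ⊢
              · rfl
              · exact absurd rfl hg
            have hg2 : e ∈ alive (Step.ins e' :: l) ∧ ∃ s, last p e (Step.ins e' :: l) = some s ∧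
                f (events (Step.ins e' :: l)) e = p e s := by
              by_contra hcon
              unfold gam at hg
              rw [if_neg hcon] at hg
              exact hg rfl
            obtain ⟨ha, s, hs1, hs2⟩ := hg2
            have hee : e' ≠ e := by
              rintro rfl
              simp [last] at hs1
            have ha' : e ∈ alive l := by
              rcases ha with h | h
              · exact absurd h.symm hee
              · exact h
            have hs3 : last p e l = some s := by simpa [last, hee] using hs1
            rw [hev] at hs2
            rw [hg1]
            by_cases hf : f (events l) e = f (events l + 1) e
            · have : gam p f l e = 1 := by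
                unfold gam
                rw [if_pos]
                exact ⟨ha', s, hs3, hf.trans hs2⟩
              omega
            · rw [if_pos ⟨ha', ha, hf⟩]
              omega
        have hk' := hk _ _ hs rfl
        calc ∑ e, (alt p e (Step.ins e' :: l) + gam p f (Step.ins e' :: l) e)
            ≤ ∑ e, ((alt p e l + gam p f l e) +
                (if e ∈ alive l ∧ e ∈ alive (Step.ins e' :: l) ∧
                  f (events l) e ≠ f (events l + 1) e then 1 else 0)) :=
              Finset.sum_le_sum hle
          _ = ∑ e, (alt p e l + gam p f l e) +
                (Finset.univ.filter (fun e => e ∈ alive l ∧ e ∈ alive (Step.ins e' :: l) ∧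
                  f (events l) e ≠ f (events l + 1) e)).card := by
              rw [Finset.sum_add_distrib, Finset.card_filter]
          _ ≤ (∑ t ∈ Finset.range (events l), k t + 2 * c * pulses l) + k (events l) := by
              omega
          _ = ∑ t ∈ Finset.range (events (Step.ins e' :: l)), k t +
                2 * c * pulses (Step.ins e' :: l) := by
              simp only [events, pulses, Finset.sum_range_succ]; ring
      | del e' =>
        have hle : ∀ e ∈ (Finset.univ : Finset E),
            alt p e (Step.del e' :: l) + gam p f (Step.del e' :: l) e ≤
              (alt p e l + gam p f l e) +
                (if e ∈ alive l ∧ e ∈ alive (Step.del e' :: l) ∧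
                  f (events l) e ≠ f (events l + 1) e then 1 else 0) := by
          intro e _
          have h1 : alt p e (Step.del e' :: l) = alt p e l := rfl
          rw [h1]
          have hev : events (Step.del e' :: l) = events l + 1 := rfl
          by_cases hg : gam p f (Step.del e' :: l) e = 0
          · rw [hg]; omega
          · have hg1 : gam p f (Step.del e' :: l) e = 1 := by
              unfold gam at hg ⊢
              split_ifs at hg ⊢
              · rfl
              · exact absurd rfl hg
            have hg2 : e ∈ alive (Step.del e' :: l) ∧ ∃ s, last p e (Step.del e' :: l) = some s ∧
                f (events (Step.del e' :: l)) e = p e s := by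
              by_contra hcon
              unfold gam at hg
              rw [if_neg hcon] at hg
              exact hg rfl
            obtain ⟨ha, s, hs1, hs2⟩ := hg2
            have ha' : e ∈ alive l := ha.1
            have hs3 : last p e l = some s := hs1
            rw [hev] at hs2
            rw [hg1]
            by_cases hf : f (events l) e = f (events l + 1) e
            · have : gam p f l e = 1 := by
                unfold gam
                rw [if_pos]
                exact ⟨ha', s, hs3, hf.trans hs2⟩
              omega
            · rw [if_pos ⟨ha', ha, hf⟩]
              omega
        have hk' := hk _ _ hs rfl
        calc ∑ e, (alt p e (Step.del e' :: l) + gam p f (Step.del e' :: l) e)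
            ≤ ∑ e, ((alt p e l + gam p f l e) +
                (if e ∈ alive l ∧ e ∈ alive (Step.del e' :: l) ∧
                  f (events l) e ≠ f (events l + 1) e then 1 else 0)) :=
              Finset.sum_le_sum hle
          _ = ∑ e, (alt p e l + gam p f l e) +
                (Finset.univ.filter (fun e => e ∈ alive l ∧ e ∈ alive (Step.del e' :: l) ∧
                  f (events l) e ≠ f (events l + 1) e)).card := by
              rw [Finset.sum_add_distrib, Finset.card_filter]
          _ ≤ (∑ t ∈ Finset.range (events l), k t + 2 * c * pulses l) + k (events l) := by
              omega
          _ = ∑ t ∈ Finset.range (events (Step.del e' :: l)), k t +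
                2 * c * pulses (Step.del e' :: l) := by
              simp only [events, pulses, Finset.sum_range_succ]; ring
  refine le_trans ?_ (main L (List.suffix_refl L))
  exact Finset.sum_le_sum fun e _ => Nat.le_add_right _ _

end Pool.Agent.Helper995.Reassign
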